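import Pool.Agent.D0H34.KG.Stm
import Pool.Agent.W930.CG.Cls
import Pool.Agent.W240.CG.Grp

/-!
# Project KG, module CLS

Class groups from independent elements which are `m`-th powers of ideals (variant of
`Pool.Agent.W930.CG.cls` without the condition on the roots of unity).
-/

set_option autoImplicit false

open Polynomial NumberField nonZeroDivisors

namespace Pool.Agent.D0H19.KG

open Pool.Agent.D0H34.KG Pool.Agent.W930.CG

/-- reduction of the exponents modulo `ℓ` -/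
theorem red {G : Type*} [CommGroup G] {s : ℕ} (g : Fin s → G) (n : Fin s → ℤ) {ℓ : ℕ} (hℓ : 0 < ℓ) :
    ∃ (r : Fin s → Fin ℓ) (v : G), ∏ i, g i ^ n i = (∏ i, g i ^ (r i : ℕ)) * v ^ ℓ := by
  have hl : (0 : ℤ) < ℓ := by exact_mod_cast hℓ
  have h1 : ∀ i, ((n i % (ℓ : ℤ)).toNat : ℤ) = n i % ℓ := fun i =>
    Int.toNat_of_nonneg (Int.emod_nonneg _ hl.ne')
  refine ⟨fun i => ⟨(n i % (ℓ : ℤ)).toNat, ?_⟩, ∏ i, g i ^ (n i / (ℓ : ℤ)), ?_⟩
  · have := Int.emod_lt_of_pos (n i) hl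
    have := h1 i
    omega
  · rw [← Finset.prod_pow, ← Finset.prod_mul_distrib]
    refine Finset.prod_congr rfl fun i _ => ?_
    simp only
    rw [← zpow_natCast (g i) (n i % (ℓ : ℤ)).toNat, h1, ← zpow_natCast (g i ^ (n i / (ℓ : ℤ))) ℓ,
      ← zpow_mul, ← zpow_add]
    congr 1
    rw [mul_comm (n i / (ℓ : ℤ))]
    exact (Int.emod_add_mul_ediv (n i) ℓ).symm

/-- the units are generated by `rank + 1` elements -/
theorem gens (F : Type) [Field F] [NumberField F] :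
    ∃ g : Fin (Units.rank F + 1) → (𝓞 F)ˣ, ∀ u : (𝓞 F)ˣ, ∃ n : Fin (Units.rank F + 1) → ℤ,
      u = ∏ i, g i ^ n i := by
  obtain ⟨ζ, hζ⟩ := IsCyclic.exists_generator (α := Units.torsion F)
  refine ⟨Fin.cons (ζ : (𝓞 F)ˣ) (Units.fundSystem F), fun u => ?_⟩
  obtain ⟨⟨z, e⟩, he, -⟩ := Units.exist_unique_eq_mul_prod F u
  obtain ⟨a, ha⟩ := Subgroup.mem_zpowers_iff.1 (hζ z)
  refine ⟨Fin.cons a e, ?_⟩
  rw [Fin.prod_univ_succ]
  simp only [Fin.cons_zero, Fin.cons_succ]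
  simp only at he
  rw [he, ← ha, Subgroup.coe_zpow]

theorem t_CLS : S_CLS := by
  intro K _ _ N m R hm hR g hI hind
  obtain ⟨G, hG⟩ := gens K
  choose I hI using hI
  refine Pool.Agent.W240.CG.grp (ClassGroup (𝓞 K)) N m (Units.rank K + 1) R hm (by omega)
    (fun i => pi K (I i)) ?_ ?_
  · intro i
    rw [← map_pow, hI, pi_eq_one]
    exact ⟨_, rfl⟩
  · intro ℓ hℓ hℓm
    have : Fact ℓ.Prime := ⟨hℓ⟩
    set ι : (𝓞 K)ˣ →* Kˣ := Units.map (algebraMap (𝓞 K) K).toMonoidHom with hι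
    have hmul : m / ℓ * ℓ = m := Nat.div_mul_cancel hℓm
    have key : ∀ e : Fin N → ZMod ℓ, ∏ i, pi K (I i) ^ ((m / ℓ) * (e i).val) = 1 →
        ∃ (r : Fin (Units.rank K + 1) → Fin ℓ) (w : Kˣ),
          ∏ i, g i ^ (e i).val = ι (∏ i, G i ^ (r i : ℕ)) * w ^ ℓ := by
      intro e he
      have h1 : pi K (∏ i, I i ^ ((m / ℓ) * (e i).val)) = 1 := by
        rw [map_prod, ← he]
        exact Finset.prod_congr rfl fun i _ => map_pow _ _ _
      obtain ⟨α, hα⟩ := pi_eq_one.1 h1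
      have h2 : toPrincipalIdeal (𝓞 K) K (∏ i, g i ^ (e i).val) =
          toPrincipalIdeal (𝓞 K) K (α ^ ℓ) := by
        rw [map_pow, hα, map_prod, ← Finset.prod_pow]
        refine Finset.prod_congr rfl fun i _ => ?_
        rw [map_pow, ← hI, ← pow_mul, ← pow_mul]
        congr 1
        calc m * (e i).val = (m / ℓ * ℓ) * (e i).val := by rw [hmul]
          _ = _ := by ring
      have h3 : toPrincipalIdeal (𝓞 K) K ((∏ i, g i ^ (e i).val) * (α ^ ℓ)⁻¹) = 1 := by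
        rw [map_mul, map_inv, h2, mul_inv_cancel]
      obtain ⟨u, hu⟩ := unit_of_toPrincipal h3
      have h4 : ∏ i, g i ^ (e i).val = ι u * α ^ ℓ := by
        rw [hι, hu, inv_mul_cancel_right]
      obtain ⟨n, hn⟩ := hG u
      obtain ⟨r, v, h5⟩ := red G n hℓ.pos
      refine ⟨r, ι v * α, ?_⟩
      rw [h4, hn, h5, map_mul, map_pow, mul_pow, mul_assoc]
    classical
    choose! r w hrw using key
    have hinj : Set.InjOn r {e : Fin N → ZMod ℓ | ∏ i, pi K (I i) ^ ((m / ℓ) * (e i).val) = 1} := by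
      intro e he e' he' hr
      have h1 := hrw e he
      have h2 := hrw e' he'
      rw [hr] at h1
      set F := ι (∏ i, G i ^ (r e' i : ℕ)) with hF
      have h3 : ∏ i, g i ^ (((e i).val : ℤ) - ((e' i).val : ℤ)) =
          (∏ i, g i ^ (e i).val) * (∏ i, g i ^ (e' i).val)⁻¹ := by
        rw [← Finset.prod_inv_distrib, ← Finset.prod_mul_distrib]
        refine Finset.prod_congr rfl fun i _ => ?_
        rw [zpow_sub, zpow_natCast, zpow_natCast]
      have h4 := hind ℓ hℓ hℓm (fun i => ((e i).val : ℤ) - ((e' i).val : ℤ)) (w e * (w e')⁻¹) (by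
        rw [h3, mul_pow, inv_pow, h1, h2, mul_inv]
        rw [show F * w e ^ ℓ * (F⁻¹ * (w e' ^ ℓ)⁻¹) = (F * F⁻¹) * (w e ^ ℓ * (w e' ^ ℓ)⁻¹) by
          rw [mul_mul_mul_comm], mul_inv_cancel, one_mul])
      funext i
      have h5 := h4 i
      have h6 : (((e i).val : ℤ) : ZMod ℓ) = (((e' i).val : ℤ) : ZMod ℓ) := by
        rw [← sub_eq_zero, ← Int.cast_sub]
        exact (ZMod.intCast_zmod_eq_zero_iff_dvd _ _).2 h5
      simpa using h6
    have h7 := Set.ncard_le_ncard_of_injOn (s := {e : Fin N → ZMod ℓ |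
      ∏ i, pi K (I i) ^ ((m / ℓ) * (e i).val) = 1}) (t := Set.univ) r (fun _ _ => Set.mem_univ _)
      hinj Set.finite_univ
    rw [Set.ncard_univ, Nat.card_eq_fintype_card, Fintype.card_fun, Fintype.card_fin,
      Fintype.card_fin] at h7
    exact h7

end Pool.Agent.D0H19.KG
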